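import Pool.Agent.UL3.Stmts

/-!
Squad UL3 (MP_c7c9bf_co), row FUB (helper34): Fubini for the sections of a compact set.
-/

set_option autoImplicit false

namespace Pool.Agent.UL3.H34

open MeasureTheory Set

/-- the equivalence `x ↦ (x 2, (x 0, x 1))` -/
noncomputable def eqv : E3 ≃ᵐ ℝ × (ℝ × ℝ) :=
  ((MeasurableEquiv.toLp 2 (Fin 3 → ℝ)).symm.trans
    (MeasurableEquiv.piFinSuccAbove (fun _ : Fin 3 => ℝ) 2)).trans
    (MeasurableEquiv.prodCongr (MeasurableEquiv.refl ℝ) MeasurableEquiv.finTwoArrow)

lemma eqv_apply (x : E3) : eqv x = (x 2, (x 0, x 1)) := rfl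

lemma mp : MeasurePreserving eqv (volume : Measure E3) (volume : Measure (ℝ × (ℝ × ℝ))) := by
  have h1 := EuclideanSpace.volume_preserving_symm_measurableEquiv_toLp (Fin 3)
  have h2 := volume_preserving_piFinSuccAbove (fun _ : Fin 3 => ℝ) 2
  have h3 := (MeasurePreserving.id (volume : Measure ℝ)).prod (volume_preserving_finTwoArrow ℝ)
  exact (h1.trans h2).trans h3

/-- the image of `K` -/
def img (K : Set E3) : Set (ℝ × (ℝ × ℝ)) := {q | up q.2 q.1 ∈ K}

lemma pre_img (K : Set E3) : eqv ⁻¹' (img K) = K := by
  ext x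
  rw [mem_preimage, eqv_apply]
  show up (x 0, x 1) (x 2) ∈ K ↔ x ∈ K
  rw [up_self]

lemma img_eq (K : Set E3) : img K = (fun x : E3 => (x 2, (x 0, x 1))) '' K := by
  ext q
  constructor
  · intro h
    exact ⟨up q.2 q.1, h, rfl⟩
  · rintro ⟨x, hx, rfl⟩
    show up (x 0, x 1) (x 2) ∈ K
    rw [up_self]; exact hx

lemma img_compact {K : Set E3} (hK : IsCompact K) : IsCompact (img K) := by
  rw [img_eq]
  refine hK.image ?_
  fun_prop

/-- the general formula -/
lemma main {K : Set E3} (hK : IsCompact K) {g : ℝ → ℝ} (hg : Continuous g) :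
    Integrable (fun t => g t * al K t) ∧ ∫ x in K, g (x 2) = ∫ t, g t * al K t := by
  have hc := img_compact hK
  have hm : MeasurableSet (img K) := hc.isClosed.measurableSet
  have hgc : Continuous fun q : ℝ × (ℝ × ℝ) => g q.1 := hg.comp continuous_fst
  have hi : IntegrableOn (fun q : ℝ × (ℝ × ℝ) => g q.1) (img K) volume :=
    hgc.continuousOn.integrableOn_compact hc
  have hi2 : Integrable ((img K).indicator fun q : ℝ × (ℝ × ℝ) => g q.1)
      ((volume : Measure ℝ).prod (volume : Measure (ℝ × ℝ))) := by
    rw [← integrable_indicator_iff hm] at hi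
    exact hi
  have hs : ∀ t : ℝ, ∫ p, (img K).indicator (fun q : ℝ × (ℝ × ℝ) => g q.1) (t, p) =
      g t * al K t := by
    intro t
    have h1 : (fun p => (img K).indicator (fun q : ℝ × (ℝ × ℝ) => g q.1) (t, p)) =
        (sec K t).indicator fun _ => g t := by
      funext p
      by_cases hp : p ∈ sec K t
      · have h2 : (t, p) ∈ img K := hp
        rw [indicator_of_mem hp, indicator_of_mem h2]
      · have h2 : (t, p) ∉ img K := hp
        rw [indicator_of_notMem hp, indicator_of_notMem h2]
    have hms : MeasurableSet (sec K t) := hm.preimage (measurable_prodMk_left (x := t))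
    rw [h1, integral_indicator hms, setIntegral_const, smul_eq_mul, mul_comm]
    rfl
  constructor
  · have h1 := hi2.integral_prod_left
    refine h1.congr (Filter.Eventually.of_forall fun t => ?_)
    exact hs t
  · have h1 : ∫ x in K, g (x 2) = ∫ q in img K, g q.1 := by
      have h2 := mp.setIntegral_preimage_emb eqv.measurableEmbedding
        (fun q : ℝ × (ℝ × ℝ) => g q.1) (img K)
      rw [pre_img] at h2
      exact h2
    rw [h1, ← integral_indicator hm]
    have h3 := integral_prod _ hi2
    have h4 : ∫ q, (img K).indicator (fun q : ℝ × (ℝ × ℝ) => g q.1) q =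
        ∫ q, (img K).indicator (fun q : ℝ × (ℝ × ℝ) => g q.1) q
          ∂((volume : Measure ℝ).prod (volume : Measure (ℝ × ℝ))) := rfl
    rw [h4, h3]
    exact integral_congr_ae (Filter.Eventually.of_forall hs)

theorem fub : FubStmt := by
  intro K hK
  refine ⟨?_, fun g hg => main hK hg, ?_⟩
  · have h := (main hK (g := fun _ => 1) continuous_const).1
    simpa using h
  · intro δ
    have hcl : IsClosed {x : E3 | |x 2| ≤ δ} :=
      isClosed_le (by fun_prop) continuous_const
    have hK' : IsCompact {x | x ∈ K ∧ |x 2| ≤ δ} := hK.inter_right hcl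
    have h := (main hK' (g := fun _ => 1) continuous_const).2
    have h1 : ∫ x in {x : E3 | x ∈ K ∧ |x 2| ≤ δ}, (1 : ℝ) = V {x | x ∈ K ∧ |x 2| ≤ δ} := by
      rw [setIntegral_const, smul_eq_mul, mul_one]
      rfl
    rw [h1] at h
    rw [h, ← integral_indicator measurableSet_Icc]
    refine integral_congr_ae (Filter.Eventually.of_forall fun t => ?_)
    show 1 * al {x | x ∈ K ∧ |x 2| ≤ δ} t = (Icc (-δ) δ).indicator (fun t => al K t) t
    rw [one_mul]
    by_cases ht : t ∈ Icc (-δ) δ
    · rw [indicator_of_mem ht]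
      have h2 : sec {x | x ∈ K ∧ |x 2| ≤ δ} t = sec K t := by
        ext p
        constructor
        · intro hp; exact hp.1
        · intro hp
          refine ⟨hp, ?_⟩
          show |up p t 2| ≤ δ
          rw [up_two]
          exact abs_le.mpr ht
      unfold al
      rw [h2]
    · rw [indicator_of_notMem ht]
      have h2 : sec {x | x ∈ K ∧ |x 2| ≤ δ} t = ∅ := by
        ext p
        constructor
        · intro hp
          exfalso
          apply ht
          have h3 : |up p t 2| ≤ δ := hp.2
          rw [up_two] at h3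
          exact abs_le.mp h3
        · intro hp; exact absurd hp (Set.notMem_empty p)
      unfold al
      rw [h2]
      simp

end Pool.Agent.UL3.H34
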